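import Mathlib

/-!
# A twisted ring of triangles

For every `r ≥ 2` we construct a connected `6`-regular graph on `n = 6 r + 6` vertices and of
diameter `r + 1` in which all balls of radius `r` have exactly `n - 3` vertices and are pairwise
isomorphic as rooted graphs, although the graph is not vertex transitive.
-/

namespace Pool.Agent.Results.MP_409260_co.TwistedRing

/-- The vertex set of the ball `B(v, r)`: all vertices at graph distance at most `r` from `v`. -/
def ballSet {V : Type} (G : SimpleGraph V) (v : V) (r : ℕ) : Set V := {u | G.edist v u ≤ (r : ℕ∞)}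

theorem self_mem_ballSet {V : Type} (G : SimpleGraph V) (v : V) (r : ℕ) : v ∈ ballSet G v r := by
  simp [ballSet]

/-- The rooted balls `B(u, r)` and `B(v, r)` (induced subgraphs of `G`, with roots `u` and `v`) are
isomorphic as rooted graphs. -/
def RootedBallsIso {V : Type} (G : SimpleGraph V) (r : ℕ) (u v : V) : Prop :=
  ∃ φ : G.induce (ballSet G u r) ≃g G.induce (ballSet G v r),
    φ ⟨u, self_mem_ballSet G u r⟩ = ⟨v, self_mem_ballSet G v r⟩

/-- `G` has uniform `k`-balls, with radius `r`: every ball of radius `r` has exactly `k` vertices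
and these balls are pairwise isomorphic as rooted graphs. -/
def HasUniformBalls {V : Type} (G : SimpleGraph V) (r k : ℕ) : Prop :=
  (∀ v : V, (ballSet G v r).ncard = k) ∧ ∀ u v : V, RootedBallsIso G r u v

/-- `G` is vertex transitive. -/
def IsVertexTransitive {V : Type} (G : SimpleGraph V) : Prop :=
  ∀ u v : V, ∃ φ : G ≃g G, φ u = v

/-! ### General lemmas -/

/-- A function that behaves like a distance function is the distance function. -/
theorem edist_eq_of_potential {V : Type} (G : SimpleGraph V) (v : V) (f : V → ℕ)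
    (h0 : ∀ u, f u = 0 → u = v) (hv : f v = 0)
    (hlip : ∀ u w, G.Adj u w → f w ≤ f u + 1)
    (hdec : ∀ u, f u ≠ 0 → ∃ w, G.Adj u w ∧ f w + 1 = f u) (u : V) :
    G.edist v u = (f u : ℕ∞) := by
  apply le_antisymm
  · -- upper bound
    have : ∀ n : ℕ, ∀ u : V, f u = n → G.edist v u ≤ (n : ℕ∞) := by
      intro n
      induction n with
      | zero =>
        intro u hu
        rw [h0 u hu]
        simp
      | succ n ih =>
        intro u hu
        obtain ⟨w, hw, hw'⟩ := hdec u (by omega)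
        have h1 := ih w (by omega)
        calc G.edist v u ≤ G.edist v w + G.edist w u := SimpleGraph.edist_triangle
          _ ≤ (n : ℕ∞) + 1 := by
            gcongr
            rw [SimpleGraph.edist_eq_one_iff_adj.2 hw.symm]
          _ = ((n + 1 : ℕ) : ℕ∞) := by push_cast; rfl
    exact this _ u rfl
  · -- lower bound
    by_contra hlt
    push Not at hlt
    have hne : G.edist v u ≠ ⊤ := ne_top_of_lt hlt
    obtain ⟨p, hp⟩ := (SimpleGraph.reachable_of_edist_ne_top hne).exists_walk_length_eq_edist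
    have key : ∀ (a b : V) (q : G.Walk a b), f b ≤ f a + q.length := by
      intro a b q
      induction q with
      | nil => simp
      | cons h q ih =>
        have := hlip _ _ h
        simp only [SimpleGraph.Walk.length_cons]
        omega
    have h1 := key _ _ p
    rw [hv, zero_add] at h1
    rw [← hp] at hlt
    have h2 : p.length < f u := by exact_mod_cast hlt
    omega


theorem edist_iso_le {V : Type} {G : SimpleGraph V} (φ : G ≃g G) (u v : V) :
    G.edist (φ u) (φ v) ≤ G.edist u v := by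
  by_cases h : G.edist u v = ⊤
  · rw [h]; exact le_top
  · obtain ⟨p, hp⟩ := (SimpleGraph.reachable_of_edist_ne_top h).exists_walk_length_eq_edist
    rw [← hp]
    calc G.edist (φ u) (φ v) ≤ ((p.map φ.toHom).length : ℕ∞) := SimpleGraph.edist_le _
      _ = (p.length : ℕ∞) := by rw [SimpleGraph.Walk.length_map]

theorem edist_iso {V : Type} {G : SimpleGraph V} (φ : G ≃g G) (u v : V) :
    G.edist (φ u) (φ v) = G.edist u v := by
  apply le_antisymm (edist_iso_le φ u v)
  have := edist_iso_le φ.symm (φ u) (φ v)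
  simpa using this

/-- An automorphism moves balls to balls. -/
theorem rootedBallsIso_of_iso {V : Type} {G : SimpleGraph V} (φ : G ≃g G) (r : ℕ) (u : V) :
    RootedBallsIso G r u (φ u) := by
  have hb : ∀ x : V, x ∈ ballSet G u r ↔ φ x ∈ ballSet G (φ u) r := by
    intro x
    simp only [ballSet, Set.mem_ofPred_eq, edist_iso]
  refine ⟨⟨φ.toEquiv.subtypeEquiv hb, ?_⟩, ?_⟩
  · intro a b
    simp only [SimpleGraph.comap_adj, Equiv.subtypeEquiv_apply, Function.Embedding.subtype_apply]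
    exact φ.map_rel_iff
  · rfl

theorem RootedBallsIso.symm {V : Type} {G : SimpleGraph V} {r : ℕ} {u v : V}
    (h : RootedBallsIso G r u v) : RootedBallsIso G r v u := by
  obtain ⟨φ, hφ⟩ := h
  refine ⟨φ.symm, ?_⟩
  rw [← hφ, RelIso.symm_apply_apply]

theorem RootedBallsIso.trans {V : Type} {G : SimpleGraph V} {r : ℕ} {u v w : V}
    (h : RootedBallsIso G r u v) (h' : RootedBallsIso G r v w) : RootedBallsIso G r u w := by
  obtain ⟨φ, hφ⟩ := h
  obtain ⟨ψ, hψ⟩ := h'
  refine ⟨φ.trans ψ, ?_⟩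
  rw [RelIso.trans_apply, hφ, hψ]

/-! ### The twisted ring -/

/-- The twist: it fixes `0` and exchanges `1` and `2`. -/
def tw (x : Fin 3) : Fin 3 := Equiv.swap 1 2 x

theorem tw_tw (x : Fin 3) : tw (tw x) = x := by
  revert x; decide

theorem tw_ne_iff (x y : Fin 3) : x ≠ tw y ↔ y ≠ tw x := by
  revert x y; decide

/-- Adjacency in the ring, on layers `0, …, 2 r + 1`. -/
def ringAdj (r : ℕ) (u v : Fin (2 * r + 2) × Fin 3) : Prop :=
  (u.1.val = v.1.val ∧ u.2 ≠ v.2) ∨ (u.1.val + 1 = v.1.val ∧ u.2 ≠ v.2) ∨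
  (v.1.val + 1 = u.1.val ∧ u.2 ≠ v.2) ∨
  (u.1.val = 0 ∧ v.1.val = 2 * r + 1 ∧ u.2 ≠ tw v.2) ∨
  (u.1.val = 2 * r + 1 ∧ v.1.val = 0 ∧ u.2 ≠ tw v.2)

/-- The twisted ring of `2 r + 2` triangles. -/
def ring (r : ℕ) : SimpleGraph (Fin (2 * r + 2) × Fin 3) where
  Adj u v := ringAdj r u v
  symm := ⟨by
    rintro ⟨⟨i, hi⟩, x⟩ ⟨⟨j, hj⟩, y⟩ h
    simp only [ringAdj] at h ⊢
    rcases h with h | h | h | h | h
    · exact Or.inl ⟨h.1.symm, h.2.symm⟩
    · exact Or.inr (Or.inr (Or.inl ⟨h.1, h.2.symm⟩))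
    · exact Or.inr (Or.inl ⟨h.1, h.2.symm⟩)
    · exact Or.inr (Or.inr (Or.inr (Or.inr ⟨h.2.1, h.1, (tw_ne_iff _ _).1 h.2.2⟩)))
    · exact Or.inr (Or.inr (Or.inr (Or.inl ⟨h.2.1, h.1, (tw_ne_iff _ _).1 h.2.2⟩)))⟩
  loopless := ⟨by
    rintro ⟨⟨i, hi⟩, x⟩ h
    simp only [ringAdj] at h
    rcases h with h | h | h | h | h
    · exact h.2 rfl
    · exact h.2 rfl
    · exact h.2 rfl
    · omega
    · omega⟩

theorem ring_adj (r : ℕ) (u v : Fin (2 * r + 2) × Fin 3) : (ring r).Adj u v ↔ ringAdj r u v :=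
  Iff.rfl

/-- The rotation of the ring by one layer. -/
def rot (r : ℕ) : Fin (2 * r + 2) × Fin 3 ≃ Fin (2 * r + 2) × Fin 3 where
  toFun u := if h : u.1.val + 1 < 2 * r + 2 then (⟨u.1.val + 1, h⟩, u.2) else (⟨0, by omega⟩, tw u.2)
  invFun u := if h : u.1.val = 0 then (⟨2 * r + 1, by omega⟩, tw u.2)
    else (⟨u.1.val - 1, by have := u.1.isLt; omega⟩, u.2)
  left_inv := by
    rintro ⟨⟨i, hi⟩, x⟩
    by_cases h : i + 1 < 2 * r + 2
    · simp [h]
    · have : i = 2 * r + 1 := by omega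
      subst this
      simp [tw_tw]
  right_inv := by
    rintro ⟨⟨i, hi⟩, x⟩
    by_cases h : i = 0
    · subst h
      simp [tw_tw]
    · have h2 : i - 1 + 1 < 2 * r + 2 := by omega
      have h3 : i - 1 + 1 = i := by omega
      simp [h, h3, hi]

theorem rot_of_lt (r i : ℕ) (hi : i < 2 * r + 2) (x : Fin 3) (h : i + 1 < 2 * r + 2) :
    rot r (⟨i, hi⟩, x) = (⟨i + 1, h⟩, x) := by
  show (if h : i + 1 < 2 * r + 2 then _ else _) = _
  rw [dif_pos h]

theorem rot_last (r i : ℕ) (hi : i < 2 * r + 2) (x : Fin 3) (h : i = 2 * r + 1) :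
    rot r (⟨i, hi⟩, x) = (⟨0, by omega⟩, tw x) := by
  simp [rot, h]

theorem rot_adj (r : ℕ) (hr : 1 ≤ r) (u v : Fin (2 * r + 2) × Fin 3) :
    (ring r).Adj (rot r u) (rot r v) ↔ (ring r).Adj u v := by
  obtain ⟨⟨i, hi⟩, x⟩ := u
  obtain ⟨⟨j, hj⟩, y⟩ := v
  by_cases h1 : i + 1 < 2 * r + 2
  · rw [rot_of_lt r i hi x h1]
    by_cases h2 : j + 1 < 2 * r + 2
    · rw [rot_of_lt r j hj y h2, ring_adj, ring_adj]
      simp only [ringAdj]
      constructor
      · rintro (h | h | h | h | h)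
        · exact Or.inl ⟨by omega, h.2⟩
        · exact Or.inr (Or.inl ⟨by omega, h.2⟩)
        · exact Or.inr (Or.inr (Or.inl ⟨by omega, h.2⟩))
        · omega
        · omega
      · rintro (h | h | h | h | h)
        · exact Or.inl ⟨by omega, h.2⟩
        · exact Or.inr (Or.inl ⟨by omega, h.2⟩)
        · exact Or.inr (Or.inr (Or.inl ⟨by omega, h.2⟩))
        · omega
        · omega
    · have hj' : j = 2 * r + 1 := by omega
      rw [rot_last r j hj y hj', ring_adj, ring_adj]
      simp only [ringAdj]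
      constructor
      · rintro (h | h | h | h | h)
        · omega
        · omega
        · exact Or.inr (Or.inr (Or.inr (Or.inl ⟨by omega, by omega, h.2⟩)))
        · omega
        · exact Or.inr (Or.inl ⟨by omega, by
            have := h.2.2
            rwa [tw_tw] at this⟩)
      · rintro (h | h | h | h | h)
        · omega
        · exact Or.inr (Or.inr (Or.inr (Or.inr ⟨by omega, by simp, by rw [tw_tw]; exact h.2⟩)))
        · omega
        · exact Or.inr (Or.inr (Or.inl ⟨by omega, h.2.2⟩))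
        · omega
  · have hi' : i = 2 * r + 1 := by omega
    rw [rot_last r i hi x hi']
    by_cases h2 : j + 1 < 2 * r + 2
    · rw [rot_of_lt r j hj y h2, ring_adj, ring_adj]
      simp only [ringAdj]
      constructor
      · rintro (h | h | h | h | h)
        · omega
        · exact Or.inr (Or.inr (Or.inr (Or.inr ⟨by omega, by omega, fun e => h.2 (by rw [e, tw_tw])⟩)))
        · omega
        · exact Or.inr (Or.inr (Or.inl ⟨by omega, fun e => h.2.2 (by rw [e])⟩))
        · omega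
      · rintro (h | h | h | h | h)
        · omega
        · omega
        · exact Or.inr (Or.inr (Or.inr (Or.inl ⟨by simp, by omega, fun e => h.2 (by
            have := congrArg tw e
            simpa [tw_tw] using this)⟩)))
        · omega
        · exact Or.inr (Or.inl ⟨by omega, fun e => h.2.2 (by rw [← e, tw_tw])⟩)
    · have hj' : j = 2 * r + 1 := by omega
      rw [rot_last r j hj y hj', ring_adj, ring_adj]
      simp only [ringAdj]
      constructor
      · rintro (h | h | h | h | h)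
        · exact Or.inl ⟨by omega, fun e => h.2 (by rw [e])⟩
        · omega
        · omega
        · omega
        · omega
      · rintro (h | h | h | h | h)
        · exact Or.inl ⟨by simp, fun e => h.2 (by
            have := congrArg tw e
            simpa [tw_tw] using this)⟩
        · omega
        · omega
        · omega
        · omega

/-- The rotation as an automorphism. -/
def rotIso (r : ℕ) (hr : 1 ≤ r) : ring r ≃g ring r where
  toEquiv := rot r
  map_rel_iff' := by
    intro u v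
    exact rot_adj r hr u v

/-- Every vertex can be moved into the layer `r` by an automorphism commuting with the rotation. -/
theorem exists_iso_center (r : ℕ) (hr : 1 ≤ r) (u : Fin (2 * r + 2) × Fin 3) :
    ∃ (φ : ring r ≃g ring r) (x : Fin 3), φ u = (⟨r, by omega⟩, x) ∧ ∀ v, φ (rot r v) = rot r (φ v) := by
  have step : ∀ i : ℕ, ∀ hi : i < 2 * r + 2, ∀ x : Fin 3, ∃ φ : ring r ≃g ring r,
      φ (⟨0, by omega⟩, x) = (⟨i, hi⟩, x) ∧ ∀ v, φ (rot r v) = rot r (φ v) := by
    intro i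
    induction i with
    | zero => intro hi x; exact ⟨RelIso.refl _, rfl, fun v => rfl⟩
    | succ i ih =>
      intro hi x
      obtain ⟨φ, hφ, hc⟩ := ih (by omega) x
      refine ⟨φ.trans (rotIso r hr), ?_, ?_⟩
      · show rot r (φ _) = _
        rw [hφ]
        exact rot_of_lt r i (by omega) x hi
      · intro v
        show rot r (φ _) = rot r (rot r (φ v))
        rw [hc]
  obtain ⟨⟨i, hi⟩, x⟩ := u
  obtain ⟨φ, hφ, hc⟩ := step i hi x
  obtain ⟨ψ, hψ, hc'⟩ := step r (by omega) x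
  refine ⟨φ.symm.trans ψ, x, ?_, ?_⟩
  · show ψ (φ.symm _) = _
    rw [← hφ, RelIso.symm_apply_apply, hψ]
  · intro v
    show ψ (φ.symm _) = rot r (ψ (φ.symm v))
    have : φ.symm (rot r v) = rot r (φ.symm v) := by
      apply φ.injective
      rw [RelIso.apply_symm_apply, hc, RelIso.apply_symm_apply]
    rw [this, hc']

/-- Distance from `(r, x)`. -/
def pot (r : ℕ) (x : Fin 3) (u : Fin (2 * r + 2) × Fin 3) : ℕ :=
  if u.1.val = r then (if u.2 = x then 0 else 1)
  else if u.1.val = r + 1 then (if u.2 = x then 2 else 1)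
  else if u.1.val + 1 = r then (if u.2 = x then 2 else 1)
  else if r < u.1.val then u.1.val - r
  else r - u.1.val


theorem pot_zero (r : ℕ) (hr : 2 ≤ r) (x : Fin 3) (u : Fin (2 * r + 2) × Fin 3)
    (h : pot r x u = 0) : u = (⟨r, by omega⟩, x) := by
  obtain ⟨⟨i, hi⟩, y⟩ := u
  simp only [pot] at h
  split_ifs at h with h1 h2 h3 h4 h5 h6 <;> first
    | omega
    | (subst h1; subst h2; rfl)

theorem pot_self (r : ℕ) (hr : 2 ≤ r) (x : Fin 3) :
    pot r x (⟨r, by omega⟩, x) = 0 := by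
  simp [pot]

theorem pot_lip (r : ℕ) (hr : 2 ≤ r) (x : Fin 3) (u v : Fin (2 * r + 2) × Fin 3)
    (h : (ring r).Adj u v) : pot r x v ≤ pot r x u + 1 := by
  obtain ⟨⟨i, hi⟩, y⟩ := u
  obtain ⟨⟨j, hj⟩, z⟩ := v
  rw [ring_adj] at h
  simp only [ringAdj] at h
  simp only [pot]
  rcases h with h | h | h | h | h
  · obtain ⟨h1, h2⟩ := h
    subst h1
    split_ifs <;> omega
  · obtain ⟨h1, h2⟩ := h
    subst h1
    split_ifs <;> omega
  · obtain ⟨h1, h2⟩ := h
    subst h1
    split_ifs <;> omega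
  · obtain ⟨h1, h2, h3⟩ := h
    subst h1; subst h2
    have h5 : 2 * r + 1 - r = r + 1 := by omega
    rw [h5]
    split_ifs <;> first
      | contradiction
      | omega
  · obtain ⟨h1, h2, h3⟩ := h
    subst h1; subst h2
    have h5 : 2 * r + 1 - r = r + 1 := by omega
    rw [h5]
    split_ifs <;> omega

theorem exists_third (x y : Fin 3) : ∃ z : Fin 3, z ≠ x ∧ z ≠ y := by
  revert x y; decide

theorem pot_dec (r : ℕ) (hr : 2 ≤ r) (x : Fin 3) (u : Fin (2 * r + 2) × Fin 3)
    (h : pot r x u ≠ 0) : ∃ w, (ring r).Adj u w ∧ pot r x w + 1 = pot r x u := by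
  obtain ⟨⟨i, hi⟩, y⟩ := u
  obtain ⟨z, hzx, hzy⟩ := exists_third x y
  by_cases h1 : i = r
  · subst h1
    have hyx : y ≠ x := by
      intro e; apply h; subst e; simp [pot]
    refine ⟨(⟨i, hi⟩, x), Or.inl ⟨rfl, hyx⟩, ?_⟩
    simp [pot, hyx]
  by_cases h2 : i = r + 1
  · subst h2
    by_cases hyx : y = x
    · subst hyx
      refine ⟨(⟨r, by omega⟩, z), Or.inr (Or.inr (Or.inl ⟨rfl, hzy.symm⟩)), ?_⟩
      simp [pot, hzy]
    · refine ⟨(⟨r, by omega⟩, x), Or.inr (Or.inr (Or.inl ⟨rfl, hyx⟩)), ?_⟩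
      simp [pot, hyx]
  by_cases h3 : i + 1 = r
  · subst h3
    by_cases hyx : y = x
    · subst hyx
      refine ⟨(⟨i + 1, by omega⟩, z), Or.inr (Or.inl ⟨rfl, hzy.symm⟩), ?_⟩
      simp [pot, hzy]
    · refine ⟨(⟨i + 1, by omega⟩, x), Or.inr (Or.inl ⟨rfl, hyx⟩), ?_⟩
      simp [pot, hyx]
  by_cases h4 : r < i
  · refine ⟨(⟨i - 1, by omega⟩, z), Or.inr (Or.inr (Or.inl ⟨?_, hzy.symm⟩)), ?_⟩
    · show i - 1 + 1 = i
      omega
    · simp only [pot]
      have e1 : i - 1 ≠ r := by omega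
      have e2 : i - 1 + 1 ≠ r := by omega
      have e3 : r < i - 1 := by omega
      rw [if_neg e1, if_neg e2, if_pos e3, if_neg h1, if_neg h2, if_neg h3, if_pos h4, if_neg hzx]
      split_ifs <;> omega
  · refine ⟨(⟨i + 1, by omega⟩, z), Or.inr (Or.inl ⟨rfl, hzy.symm⟩), ?_⟩
    simp only [pot]
    have e1 : i + 1 ≠ r := by omega
    have e2 : i + 1 ≠ r + 1 := by omega
    have e3 : ¬ r < i + 1 := by omega
    rw [if_neg e1, if_neg e2, if_neg e3, if_neg h1, if_neg h2, if_neg h3, if_neg h4, if_neg hzx]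
    split_ifs <;> omega

theorem edist_center (r : ℕ) (hr : 2 ≤ r) (x : Fin 3) (u : Fin (2 * r + 2) × Fin 3) :
    (ring r).edist (⟨r, by omega⟩, x) u = (pot r x u : ℕ∞) :=
  edist_eq_of_potential (ring r) _ (pot r x) (pot_zero r hr x) (pot_self r hr x)
    (pot_lip r hr x) (pot_dec r hr x) u

/-- The ball around a vertex of the layer `r`. -/
theorem ballSet_center (r : ℕ) (hr : 2 ≤ r) (x : Fin 3) :
    ballSet (ring r) (⟨r, by omega⟩, x) r = {u | u.1.val ≠ 2 * r + 1} := by
  ext ⟨⟨i, hi⟩, y⟩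
  simp only [ballSet, Set.mem_ofPred_eq, edist_center r hr x]
  rw [Nat.cast_le]
  simp only [pot]
  split_ifs <;> omega

theorem ncard_ballSet_center (r : ℕ) (hr : 2 ≤ r) (x : Fin 3) :
    (ballSet (ring r) (⟨r, by omega⟩, x) r).ncard = 6 * r + 3 := by
  rw [ballSet_center r hr x]
  have h1 : {u : Fin (2 * r + 2) × Fin 3 | u.1.val ≠ 2 * r + 1} =
      ({(⟨2 * r + 1, by omega⟩ : Fin (2 * r + 2))}ᶜ : Set (Fin (2 * r + 2))) ×ˢ
        (Set.univ : Set (Fin 3)) := by
    ext ⟨⟨i, hi⟩, y⟩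
    simp
  rw [h1, Set.ncard_prod, Set.ncard_compl, Set.ncard_singleton, Set.ncard_univ]
  simp
  omega

theorem card_ballSet (r : ℕ) (hr : 2 ≤ r) (u : Fin (2 * r + 2) × Fin 3) :
    (ballSet (ring r) u r).ncard = 6 * r + 3 := by
  obtain ⟨φ, x, hφ, -⟩ := exists_iso_center r (by omega) u
  rw [← ncard_ballSet_center r hr x, ← hφ]
  have : ballSet (ring r) (φ u) r = φ '' ballSet (ring r) u r := by
    ext w
    constructor
    · intro hw
      refine ⟨φ.symm w, ?_, by simp⟩
      simp only [ballSet, Set.mem_ofPred_eq] at hw ⊢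
      rw [← edist_iso φ, RelIso.apply_symm_apply]
      exact hw
    · rintro ⟨w, hw, rfl⟩
      simp only [ballSet, Set.mem_ofPred_eq] at hw ⊢
      rwa [edist_iso φ]
  rw [this, Set.ncard_image_of_injective _ φ.injective]

theorem iso_center_center (r : ℕ) (hr : 2 ≤ r) (x y : Fin 3) :
    RootedBallsIso (ring r) r (⟨r, by omega⟩, x) (⟨r, by omega⟩, y) := by
  have hmem : ∀ (z : Fin 3) (u : Fin (2 * r + 2) × Fin 3),
      u ∈ ballSet (ring r) (⟨r, by omega⟩, z) r ↔ u.1.val ≠ 2 * r + 1 := by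
    intro z u
    rw [ballSet_center r hr z]
    rfl
  let e : Fin (2 * r + 2) × Fin 3 ≃ Fin (2 * r + 2) × Fin 3 :=
    Equiv.prodCongr (Equiv.refl _) (Equiv.swap x y)
  have he : ∀ u : Fin (2 * r + 2) × Fin 3,
      u ∈ ballSet (ring r) (⟨r, by omega⟩, x) r ↔ e u ∈ ballSet (ring r) (⟨r, by omega⟩, y) r := by
    intro u
    rw [hmem, hmem]
    rfl
  refine ⟨⟨e.subtypeEquiv he, ?_⟩, ?_⟩
  · rintro ⟨⟨⟨i, hi⟩, a⟩, ha⟩ ⟨⟨⟨j, hj⟩, b⟩, hb⟩
    rw [hmem] at ha hb
    simp only at ha hb
    show (ring r).Adj (e (⟨i, hi⟩, a)) (e (⟨j, hj⟩, b)) ↔ (ring r).Adj (⟨i, hi⟩, a) (⟨j, hj⟩, b)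
    rw [ring_adj, ring_adj]
    have hne : Equiv.swap x y a ≠ Equiv.swap x y b ↔ a ≠ b :=
      (Equiv.injective _).ne_iff
    simp only [ringAdj, e, Equiv.prodCongr_apply, Prod.map, Equiv.refl_apply, hne]
    constructor
    · rintro (h | h | h | h | h)
      · exact Or.inl h
      · exact Or.inr (Or.inl h)
      · exact Or.inr (Or.inr (Or.inl h))
      · exact absurd h.2.1 hb
      · exact absurd h.1 ha
    · rintro (h | h | h | h | h)
      · exact Or.inl h
      · exact Or.inr (Or.inl h)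
      · exact Or.inr (Or.inr (Or.inl h))
      · exact absurd h.2.1 hb
      · exact absurd h.1 ha
  · apply Subtype.ext
    show e (⟨r, by omega⟩, x) = (⟨r, by omega⟩, y)
    simp [e]

theorem rootedBallsIso_ring (r : ℕ) (hr : 2 ≤ r) (u v : Fin (2 * r + 2) × Fin 3) :
    RootedBallsIso (ring r) r u v := by
  obtain ⟨φ, x, hφ, -⟩ := exists_iso_center r (by omega) u
  obtain ⟨ψ, y, hψ, -⟩ := exists_iso_center r (by omega) v
  have h1 := rootedBallsIso_of_iso φ r u
  have h2 := rootedBallsIso_of_iso ψ r v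
  rw [hφ] at h1
  rw [hψ] at h2
  exact (h1.trans (iso_center_center r hr x y)).trans h2.symm

/-! ### The ring is not vertex transitive -/

theorem adj_center (r : ℕ) (hr : 2 ≤ r) (x : Fin 3) (v : Fin (2 * r + 2) × Fin 3) :
    (ring r).Adj (⟨r, by omega⟩, x) v ↔
      (v.1.val = r ∨ v.1.val = r + 1 ∨ v.1.val + 1 = r) ∧ x ≠ v.2 := by
  obtain ⟨⟨j, hj⟩, y⟩ := v
  rw [ring_adj]
  simp only [ringAdj]
  constructor
  · rintro (h | h | h | h | h)
    · exact ⟨Or.inl h.1.symm, h.2⟩
    · exact ⟨Or.inr (Or.inl h.1.symm), h.2⟩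
    · exact ⟨Or.inr (Or.inr h.1), h.2⟩
    · omega
    · omega
  · rintro ⟨h | h | h, hne⟩
    · exact Or.inl ⟨h.symm, hne⟩
    · exact Or.inr (Or.inl ⟨h.symm, hne⟩)
    · exact Or.inr (Or.inr (Or.inl ⟨h, hne⟩))

/-- Non-adjacent vertices with at least three common neighbours. -/
def Track {V : Type} (G : SimpleGraph V) (u v : V) : Prop :=
  u ≠ v ∧ ¬ G.Adj u v ∧ ∃ a b c : V, a ≠ b ∧ a ≠ c ∧ b ≠ c ∧
    (G.Adj u a ∧ G.Adj v a) ∧ (G.Adj u b ∧ G.Adj v b) ∧ (G.Adj u c ∧ G.Adj v c)

theorem Track.map {V : Type} {G : SimpleGraph V} {u v : V} (h : Track G u v) (φ : G ≃g G) :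
    Track G (φ u) (φ v) := by
  obtain ⟨h1, h2, a, b, c, hab, hac, hbc, ⟨ha, ha'⟩, ⟨hb, hb'⟩, ⟨hc, hc'⟩⟩ := h
  refine ⟨φ.injective.ne h1, fun h => h2 (φ.map_rel_iff.1 h), φ a, φ b, φ c,
    φ.injective.ne hab, φ.injective.ne hac, φ.injective.ne hbc,
    ⟨φ.map_rel_iff.2 ha, φ.map_rel_iff.2 ha'⟩, ⟨φ.map_rel_iff.2 hb, φ.map_rel_iff.2 hb'⟩,
    ⟨φ.map_rel_iff.2 hc, φ.map_rel_iff.2 hc'⟩⟩

theorem exists_two (x : Fin 3) : ∃ y z : Fin 3, y ≠ x ∧ z ≠ x ∧ y ≠ z := by
  revert x; decide

theorem no_three (x a b c : Fin 3) (ha : x ≠ a) (hb : x ≠ b) (hc : x ≠ c) (hab : a ≠ b)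
    (hac : a ≠ c) : b = c := by
  revert x a b c; decide

theorem track_rot (r : ℕ) (hr : 2 ≤ r) (u : Fin (2 * r + 2) × Fin 3) :
    Track (ring r) u (rot r u) := by
  obtain ⟨φ, x, hφ, hc⟩ := exists_iso_center r (by omega) u
  have key : Track (ring r) (⟨r, by omega⟩, x) (rot r (⟨r, by omega⟩, x)) := by
    rw [rot_of_lt r r (by omega) x (by omega)]
    obtain ⟨y, z, hy, hz, hyz⟩ := exists_two x
    refine ⟨?_, ?_, (⟨r, by omega⟩, y), (⟨r, by omega⟩, z), (⟨r + 1, by omega⟩, y), ?_, ?_, ?_,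
      ⟨?_, ?_⟩, ⟨?_, ?_⟩, ⟨?_, ?_⟩⟩
    · simp
    · rw [adj_center r hr]
      simp
    · simp [hyz]
    · simp
    · simp
    · rw [adj_center r hr]; exact ⟨Or.inl rfl, hy.symm⟩
    · exact Or.inr (Or.inr (Or.inl ⟨rfl, hy.symm⟩))
    · rw [adj_center r hr]; exact ⟨Or.inl rfl, hz.symm⟩
    · exact Or.inr (Or.inr (Or.inl ⟨rfl, hz.symm⟩))
    · rw [adj_center r hr]; exact ⟨Or.inr (Or.inl rfl), hy.symm⟩
    · exact Or.inl ⟨rfl, hy.symm⟩
  have h2 := key.map φ.symm
  rw [← hφ, ← hc, RelIso.symm_apply_apply, RelIso.symm_apply_apply] at h2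
  exact h2

theorem track_imp (r : ℕ) (hr : 2 ≤ r) (u v : Fin (2 * r + 2) × Fin 3)
    (h : Track (ring r) u v) : v = rot r u ∨ u = rot r v := by
  obtain ⟨φ, x, hφ, hc⟩ := exists_iso_center r (by omega) u
  have h' := h.map φ
  rw [hφ] at h'
  have key : φ v = rot r (φ u) ∨ φ u = rot r (φ v) := by
    rw [hφ]
    generalize φ v = w at h'
    obtain ⟨⟨j, hj⟩, y⟩ := w
    obtain ⟨h1, h2, a, b, c, hab, hac, hbc, ⟨ha, ha'⟩, ⟨hb, hb'⟩, ⟨hc, hc'⟩⟩ := h'
    rw [adj_center r hr] at h2 ha hb hc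
    simp only at h2
    by_cases hjr : j = r
    · subst hjr
      by_cases hxy : x = y
      · subst hxy; exact absurd rfl h1
      · exact absurd ⟨Or.inl rfl, hxy⟩ h2
    by_cases hjr1 : j = r + 1
    · subst hjr1
      by_cases hxy : x = y
      · subst hxy
        left
        rw [rot_of_lt r r (by omega) x (by omega)]
      · exact absurd ⟨Or.inr (Or.inl rfl), hxy⟩ h2
    by_cases hjr2 : j + 1 = r
    · by_cases hxy : x = y
      · subst hxy
        right
        rw [rot_of_lt r j hj x (by omega)]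
        simp [hjr2]
      · exact absurd ⟨Or.inr (Or.inr hjr2), hxy⟩ h2
    exfalso
    have hlayer : ∀ a : Fin (2 * r + 2) × Fin 3,
        (a.1.val = r ∨ a.1.val = r + 1 ∨ a.1.val + 1 = r) ∧ x ≠ a.2 →
        (ring r).Adj (⟨j, hj⟩, y) a → (j < r ∧ a.1.val + 1 = r) ∨ (r < j ∧ a.1.val = r + 1) := by
      rintro ⟨⟨k, hk⟩, z⟩ ⟨h3, -⟩ h4
      rw [ring_adj] at h4
      simp only [ringAdj] at h3 h4 ⊢
      omega
    have ha2 := hlayer a ha ha'
    have hb2 := hlayer b hb hb'
    have hc2 := hlayer c hc hc'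
    have eab : a.1 = b.1 := Fin.ext (by omega)
    have eac : a.1 = c.1 := Fin.ext (by omega)
    have nab : a.2 ≠ b.2 := fun e => hab (Prod.ext eab e)
    have nac : a.2 ≠ c.2 := fun e => hac (Prod.ext eac e)
    have ebc := no_three x a.2 b.2 c.2 ha.2 hb.2 hc.2 nab nac
    exact hbc (Prod.ext (eab.symm.trans eac) ebc)
  rcases key with key | key
  · left
    apply φ.injective
    rw [key, hc]
  · right
    apply φ.injective
    rw [key, hc]

theorem rot_iterate_of_lt (r i : ℕ) (hi : i < 2 * r + 2) (x : Fin 3) (k : ℕ)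
    (h : i + k < 2 * r + 2) : (rot r)^[k] (⟨i, hi⟩, x) = (⟨i + k, h⟩, x) := by
  induction k with
  | zero => rfl
  | succ k ih =>
    rw [Function.iterate_succ_apply', ih (by omega), rot_of_lt r (i + k) (by omega) x (by omega)]
    rfl

theorem rot_iterate_full (r : ℕ) (x : Fin 3) :
    (rot r)^[2 * r + 2] (⟨r, by omega⟩, x) = (⟨r, by omega⟩, tw x) := by
  have e : 2 * r + 2 = r + (1 + (r + 1)) := by ring
  have e2 : ∀ u, (rot r)^[2 * r + 2] u = (rot r)^[r + (1 + (r + 1))] u :=
    fun u => congrFun (congrArg (fun n => (rot r)^[n]) e) u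
  rw [e2, Function.iterate_add_apply, Function.iterate_add_apply,
    rot_iterate_of_lt r r (by omega) x (r + 1) (by omega), Function.iterate_one,
    rot_last r _ (by omega) x (by omega), rot_iterate_of_lt r 0 (by omega) (tw x) r (by omega)]
  simp

theorem rot_rot_ne (r : ℕ) (hr : 1 ≤ r) (u : Fin (2 * r + 2) × Fin 3) : rot r (rot r u) ≠ u := by
  obtain ⟨⟨i, hi⟩, x⟩ := u
  intro h
  by_cases h1 : i + 1 < 2 * r + 2
  · rw [rot_of_lt r i hi x h1] at h
    by_cases h2 : i + 1 + 1 < 2 * r + 2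
    · rw [rot_of_lt r (i + 1) h1 x h2] at h
      have := congrArg (fun u => u.1.val) h
      simp at this
      omega
    · rw [rot_last r (i + 1) h1 x (by omega)] at h
      have := congrArg (fun u => u.1.val) h
      simp at this
      omega
  · rw [rot_last r i hi x (by omega), rot_of_lt r 0 (by omega) (tw x) (by omega)] at h
    have := congrArg (fun u => u.1.val) h
    simp at this
    omega

theorem not_isVertexTransitive (r : ℕ) (hr : 2 ≤ r) : ¬ IsVertexTransitive (ring r) := by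
  intro htr
  obtain ⟨φ, hφ⟩ := htr (⟨r, by omega⟩, 0) (⟨r, by omega⟩, 1)
  set u0 : Fin (2 * r + 2) × Fin 3 := (⟨r, by omega⟩, 0) with hu0
  have hstep : ∀ k : ℕ, φ ((rot r)^[k + 1] u0) = rot r (φ ((rot r)^[k] u0)) ∨
      φ ((rot r)^[k] u0) = rot r (φ ((rot r)^[k + 1] u0)) := by
    intro k
    have h1 := (track_rot r hr ((rot r)^[k] u0)).map φ
    rw [← Function.iterate_succ_apply' (rot r) k u0] at h1
    exact track_imp r hr _ _ h1
  have hne : ∀ k : ℕ, φ ((rot r)^[k + 2] u0) ≠ φ ((rot r)^[k] u0) := by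
    intro k h
    have h1 := φ.injective h
    rw [Function.iterate_succ_apply', Function.iterate_succ_apply'] at h1
    exact rot_rot_ne r (by omega) _ h1
  have hfull0 : (rot r)^[2 * r + 2] u0 = u0 := by
    rw [hu0, rot_iterate_full]
    rfl
  have hfull1 : (rot r)^[2 * r + 2] (φ u0) ≠ φ u0 := by
    rw [hφ, rot_iterate_full]
    intro h
    have := congrArg (fun u => u.2) h
    revert this
    show tw 1 = 1 → False
    decide
  rcases hstep 0 with h0 | h0
  · have hall : ∀ k : ℕ, φ ((rot r)^[k + 1] u0) = rot r (φ ((rot r)^[k] u0)) := by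
      intro k
      induction k with
      | zero => exact h0
      | succ k ih =>
        rcases hstep (k + 1) with h | h
        · exact h
        · exfalso
          rw [ih] at h
          exact hne k ((rot r).injective h).symm
    have hit : ∀ k : ℕ, φ ((rot r)^[k] u0) = (rot r)^[k] (φ u0) := by
      intro k
      induction k with
      | zero => rfl
      | succ k ih => rw [hall k, ih, Function.iterate_succ_apply']
    apply hfull1
    rw [← hit, hfull0]
  · have hall : ∀ k : ℕ, φ ((rot r)^[k] u0) = rot r (φ ((rot r)^[k + 1] u0)) := by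
      intro k
      induction k with
      | zero => exact h0
      | succ k ih =>
        rcases hstep (k + 1) with h | h
        · exfalso
          rw [← ih] at h
          exact hne k h
        · exact h
    have hit : ∀ k : ℕ, φ u0 = (rot r)^[k] (φ ((rot r)^[k] u0)) := by
      intro k
      induction k with
      | zero => rfl
      | succ k ih =>
        rw [Function.iterate_succ_apply, ← hall k]
        exact ih
    apply hfull1
    conv_rhs => rw [hit (2 * r + 2), hfull0]

/-! ### Degree and diameter -/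

theorem degree_center (r : ℕ) (hr : 2 ≤ r) (x : Fin 3) :
    ((ring r).neighborSet (⟨r, by omega⟩, x)).ncard = 6 := by
  have h1 : (ring r).neighborSet (⟨r, by omega⟩, x) =
      ({⟨r, by omega⟩, ⟨r + 1, by omega⟩, ⟨r - 1, by omega⟩} : Set (Fin (2 * r + 2))) ×ˢ
        ({x}ᶜ : Set (Fin 3)) := by
    ext ⟨⟨j, hj⟩, y⟩
    rw [SimpleGraph.mem_neighborSet, adj_center r hr]
    simp only [Set.mem_prod, Set.mem_insert_iff, Set.mem_singleton_iff, Set.mem_compl_iff,
      Fin.mk.injEq]
    constructor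
    · rintro ⟨h, h'⟩
      exact ⟨by omega, fun e => h' e.symm⟩
    · rintro ⟨h, h'⟩
      exact ⟨by omega, fun e => h' e.symm⟩
  rw [h1, Set.ncard_prod, Set.ncard_compl, Set.ncard_singleton]
  have h2 : ({⟨r, by omega⟩, ⟨r + 1, by omega⟩, ⟨r - 1, by omega⟩} :
      Set (Fin (2 * r + 2))).ncard = 3 := by
    rw [Set.ncard_eq_three]
    refine ⟨_, _, _, ?_, ?_, ?_, rfl⟩
    · simp
    · simp; omega
    · simp; omega
  rw [h2]
  simp

theorem degree_ring (r : ℕ) (hr : 2 ≤ r) (u : Fin (2 * r + 2) × Fin 3) :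
    ((ring r).neighborSet u).ncard = 6 := by
  obtain ⟨φ, x, hφ, -⟩ := exists_iso_center r (by omega) u
  rw [← degree_center r hr x, ← hφ]
  have : (ring r).neighborSet (φ u) = φ '' (ring r).neighborSet u := by
    ext w
    constructor
    · intro hw
      refine ⟨φ.symm w, ?_, by simp⟩
      have h2 : (ring r).Adj (φ u) (φ (φ.symm w)) := by
        rw [RelIso.apply_symm_apply]
        exact hw
      exact φ.map_rel_iff.1 h2
    · rintro ⟨w, hw, rfl⟩
      exact φ.map_rel_iff.2 hw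
  rw [this, Set.ncard_image_of_injective _ φ.injective]

theorem ediam_ring (r : ℕ) (hr : 2 ≤ r) : (ring r).ediam = ((r + 1 : ℕ) : ℕ∞) := by
  apply le_antisymm
  · apply SimpleGraph.ediam_le_of_edist_le
    intro u v
    obtain ⟨φ, x, hφ, -⟩ := exists_iso_center r (by omega) u
    rw [← edist_iso φ, hφ, edist_center r hr, Nat.cast_le]
    have := (φ v).1.isLt
    simp only [pot]
    split_ifs <;> omega
  · calc ((r + 1 : ℕ) : ℕ∞) = (ring r).edist (⟨r, by omega⟩, 0) (⟨2 * r + 1, by omega⟩, 0) := by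
          rw [edist_center r hr]
          congr 1
          simp only [pot]
          rw [if_neg (by omega), if_neg (by omega), if_neg (by omega), if_pos (by omega)]
          omega
      _ ≤ (ring r).ediam := SimpleGraph.edist_le_ediam

/-- **Main result.** For every `r ≥ 2` there is a connected `6`-regular graph `G` with
`n = 6 r + 6` vertices and diameter `r + 1` which has uniform `k`-balls of radius `r` for
`k = n - 3` (so `n / 2 < k < n`), but `G` is not vertex transitive. -/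
theorem result : ∀ r : ℕ, 2 ≤ r →
    ∃ (V : Type) (_ : Fintype V) (G : SimpleGraph V) (n k : ℕ),
      Fintype.card V = n ∧ n = 6 * r + 6 ∧ k + 3 = n ∧ n < 2 * k ∧ k < n ∧
      G.Connected ∧ (∀ v : V, (G.neighborSet v).ncard = 6) ∧ G.ediam = ((r + 1 : ℕ) : ℕ∞) ∧
      HasUniformBalls G r k ∧ ¬ IsVertexTransitive G := by
  intro r hr
  refine ⟨Fin (2 * r + 2) × Fin 3, inferInstance, ring r, 6 * r + 6, 6 * r + 3, ?_, rfl, by omega,
    by omega, by omega, ?_, degree_ring r hr, ediam_ring r hr, ⟨card_ballSet r hr,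
    rootedBallsIso_ring r hr⟩, not_isVertexTransitive r hr⟩
  · simp
    ring
  · have : Nonempty (Fin (2 * r + 2) × Fin 3) := ⟨(⟨r, by omega⟩, 0)⟩
    apply SimpleGraph.connected_of_ediam_ne_top
    rw [ediam_ring r hr]
    exact ENat.natCast_ne_top _

end Pool.Agent.Results.MP_409260_co.TwistedRing
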